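import Pool.Agent.Helper8.SPV.Stmts
import Pool.Agent.Helper8.SPV.PLib

/-!
# Module PL1: the laws of places of a function field of one variable
-/

set_option autoImplicit false
set_option linter.unusedSectionVars false

namespace Pool.Agent.Helper8.SPV

open Polynomial

section vals

variable {Γ : Type} [LinearOrderedCommGroupWithZero Γ]

theorem PL1_pow_eq_one {a : Γ} {n : ℕ} (hn : 0 < n) (h : a ^ n = 1) : a = 1 := by
  rcases lt_trichotomy a 1 with h1 | h1 | h1
  · exact absurd h (pow_lt_one₀ (zero_le) h1 hn.ne').ne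
  · exact h1
  · exact absurd h (one_lt_pow₀ h1 hn.ne').ne'

variable {k K : Type} [Field k] [IsAlgClosed k] [Field K] [Algebra k K] (v : Valuation K Γ)
  (hk : ∀ c : k, c ≠ 0 → v (algebraMap k K c) = 1)

include hk

/-- a polynomial expression with value less than one has a linear factor with value less than
one -/
theorem PL1_lin (y : K) (C : k[X]) (hC : C ≠ 0) (h : v (aeval y C) < 1) :
    ∃ r : k, v (y - algebraMap k K r) < 1 := by
  by_contra hcon
  push Not at hcon
  have key : ∀ (n : ℕ) (C : k[X]), C.natDegree = n → C ≠ 0 → 1 ≤ v (aeval y C) := by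
    intro n
    induction n with
    | zero =>
      intro C hn h0
      rw [Polynomial.eq_C_of_natDegree_eq_zero hn, aeval_C, hk]
      intro h1
      apply h0
      rw [Polynomial.eq_C_of_natDegree_eq_zero hn, h1, map_zero]
    | succ n ih =>
      intro C hn h0
      obtain ⟨r, hr⟩ := IsAlgClosed.exists_root C (by
        rw [Polynomial.degree_eq_natDegree h0, hn]
        exact_mod_cast Nat.succ_ne_zero n)
      obtain ⟨q, hq⟩ := Polynomial.dvd_iff_isRoot.2 hr
      have hq0 : q ≠ 0 := by
        rintro rfl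
        exact h0 (by rw [hq, mul_zero])
      have hqn : q.natDegree = n := by
        have := congrArg Polynomial.natDegree hq
        rw [Polynomial.natDegree_mul (X_sub_C_ne_zero r) hq0, natDegree_X_sub_C, hn] at this
        omega
      rw [hq, map_mul, map_mul, map_sub, aeval_X, aeval_C]
      exact one_le_mul (hcon r) (ih q hqn hq0)
  exact absurd (key _ C rfl hC) (not_le.mpr h)

theorem PL1_le (y : K) (hy : v y ≤ 1) (g : k[X]) : v (aeval y g) ≤ 1 := by
  induction g using Polynomial.induction_on' with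
  | add p q hp hq =>
    rw [map_add]
    exact (v.map_add _ _).trans (max_le hp hq)
  | monomial n a =>
    rw [aeval_monomial, map_mul, map_pow]
    have h1 : v (algebraMap k K a) ≤ 1 := by
      by_cases ha : a = 0
      · rw [ha, map_zero, map_zero]
        exact zero_le
      · exact (hk a ha).le
    exact mul_le_one' h1 (pow_le_one' hy n)

/-- values of polynomials -/
theorem PL1_poly (y : K) (a : k) (ha : v (y - algebraMap k K a) < 1) (g : k[X]) (hg : g ≠ 0) :
    ∃ (m : ℕ) (c : k) (r : K), c ≠ 0 ∧ v (r - algebraMap k K c) < 1 ∧ v r = 1 ∧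
      aeval y g = (y - algebraMap k K a) ^ m * r := by
  obtain ⟨q, hq, hdvd⟩ := Polynomial.exists_eq_pow_rootMultiplicity_mul_and_not_dvd g hg a
  have hc : q.eval a ≠ 0 := fun h0 => hdvd (Polynomial.dvd_iff_isRoot.2 h0)
  have hy : v y ≤ 1 := by
    have h1 : v (algebraMap k K a) ≤ 1 := by
      by_cases ha : a = 0
      · rw [ha, map_zero, map_zero]
        exact zero_le
      · exact (hk a ha).le
    have h2 := v.map_add (y - algebraMap k K a) (algebraMap k K a)
    rw [sub_add_cancel] at h2
    exact h2.trans (max_le ha.le h1)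
  have h3 : v (aeval y q - algebraMap k K (q.eval a)) < 1 := by
    obtain ⟨r, hr⟩ := Polynomial.X_sub_C_dvd_sub_C_eval (a := a) (p := q)
    have h4 := congrArg (aeval y) hr
    rw [map_sub, aeval_C, map_mul, map_sub, aeval_X, aeval_C] at h4
    rw [h4, map_mul]
    exact mul_lt_one_of_lt_of_le ha (PL1_le v hk y hy r)
  refine ⟨rootMultiplicity a g, q.eval a, aeval y q, hc, h3, ?_, ?_⟩
  · have h4 : aeval y q = algebraMap k K (q.eval a) + (aeval y q - algebraMap k K (q.eval a)) := by
      ring
    rw [h4, v.map_add_eq_of_lt_left (by rw [hk _ hc]; exact h3), hk _ hc]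
  · conv_lhs => rw [hq]
    rw [map_mul, map_pow, map_sub, aeval_X, aeval_C]

/-- elements of the rational function field -/
theorem PL1_rat (y : K) (a : k) (ha : v (y - algebraMap k K a) < 1)
    (hy : Transcendental k y) (f : K) (hf : f ∈ IntermediateField.adjoin k {y}) (hf0 : f ≠ 0) :
    ∃ (m : ℤ) (c : k) (r : K), c ≠ 0 ∧ v (r - algebraMap k K c) < 1 ∧ v r = 1 ∧
      f = (y - algebraMap k K a) ^ m * r := by
  obtain ⟨g, h, rfl⟩ := (IntermediateField.mem_adjoin_simple_iff k f).1 hf
  have hg0 : g ≠ 0 := by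
    rintro rfl
    exact hf0 (by rw [map_zero, zero_div])
  have hh0 : h ≠ 0 := by
    rintro rfl
    exact hf0 (by rw [map_zero, div_zero])
  obtain ⟨m, c, r, hc, hrc, hr, hgr⟩ := PL1_poly v hk y a ha g hg0
  obtain ⟨n, d, t, hd, htd, ht, hht⟩ := PL1_poly v hk y a ha h hh0
  have hya : y - algebraMap k K a ≠ 0 := by
    intro h0
    rw [sub_eq_zero] at h0
    rw [h0] at hy
    exact hy (isAlgebraic_algebraMap a)
  have ht0 : t ≠ 0 := by
    intro h0
    rw [h0, map_zero] at ht
    exact zero_ne_one ht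
  have hdK : algebraMap k K d ≠ 0 := (_root_.map_ne_zero _).2 hd
  refine ⟨(m : ℤ) - n, c / d, r / t, div_ne_zero hc hd, ?_, ?_, ?_⟩
  · have h1 : r / t - algebraMap k K (c / d) =
        ((r - algebraMap k K c) * algebraMap k K d - algebraMap k K c * (t - algebraMap k K d)) /
          (t * algebraMap k K d) := by
      rw [map_div₀]
      field_simp
      ring
    rw [h1, map_div₀, map_mul, ht, hk d hd, mul_one, div_one]
    refine lt_of_le_of_lt (v.map_sub _ _) (max_lt ?_ ?_)
    · rw [map_mul, hk d hd, mul_one]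
      exact hrc
    · rw [map_mul, hk c hc, one_mul]
      exact htd
  · rw [map_div₀, hr, ht, div_one]
  · rw [hgr, hht, zpow_sub₀ hya, zpow_natCast, zpow_natCast]
    field_simp

/-- values of elements of the function field: a bounded power is a value of a rational function -/
theorem PL1_alg (y : K) (a : k) (ha : v (y - algebraMap k K a) < 1)
    (hy : Transcendental k y) [FiniteDimensional (IntermediateField.adjoin k {y}) K]
    (f : K) (hf0 : f ≠ 0) :
    ∃ m : ℤ, v f ^ (Module.finrank (IntermediateField.adjoin k {y}) K).factorial =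
      v (y - algebraMap k K a) ^ m := by
  classical
  set F₀ := IntermediateField.adjoin k {y} with hF₀
  set P := minpoly F₀ f with hP
  have hint : IsIntegral F₀ f := IsIntegral.of_finite F₀ f
  have hPm : P.Monic := minpoly.monic hint
  have hsum : ∑ i ∈ Finset.range (P.natDegree + 1), (P.coeff i : K) * f ^ i = 0 := by
    have h1 := minpoly.aeval F₀ f
    rw [aeval_eq_sum_range] at h1
    rw [← h1]
    exact Finset.sum_congr rfl fun i _ => by rw [Algebra.smul_def]; rfl
  have hne : (Finset.range (P.natDegree + 1)).Nonempty := ⟨0, by simp⟩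
  obtain ⟨j, hj, hmax⟩ := Finset.exists_max_image (Finset.range (P.natDegree + 1))
    (fun i => v ((P.coeff i : K) * f ^ i)) hne
  have hlead : v ((P.coeff P.natDegree : K) * f ^ P.natDegree) ≠ 0 := by
    have : P.coeff P.natDegree = 1 := hPm
    rw [this]
    simp [hf0]
  have hj0 : v ((P.coeff j : K) * f ^ j) ≠ 0 := by
    have h1 := hmax P.natDegree (by simp)
    exact (lt_of_lt_of_le (zero_lt_iff.2 hlead) h1).ne'
  obtain ⟨i, hi, hij, heq⟩ : ∃ i ∈ Finset.range (P.natDegree + 1), i ≠ j ∧
      v ((P.coeff i : K) * f ^ i) = v ((P.coeff j : K) * f ^ j) := by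
    by_contra hcon
    push Not at hcon
    have h1 : v (∑ i ∈ Finset.range (P.natDegree + 1), (P.coeff i : K) * f ^ i) =
        v ((P.coeff j : K) * f ^ j) := by
      apply v.map_sum_eq_of_lt hj
      intro i hi
      rw [Finset.mem_sdiff, Finset.mem_singleton] at hi
      exact lt_of_le_of_ne (hmax i hi.1) (hcon i hi.1 hi.2)
    rw [hsum, map_zero] at h1
    exact hj0 h1.symm
  -- symmetric in i and j
  have key : ∀ i j : ℕ, i < j → j < P.natDegree + 1 →
      v ((P.coeff i : K) * f ^ i) = v ((P.coeff j : K) * f ^ j) →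
      v ((P.coeff i : K) * f ^ i) ≠ 0 → ∃ m : ℤ,
        v f ^ (Module.finrank F₀ K).factorial = v (y - algebraMap k K a) ^ m := by
    intro i j hij hj h1 h2
    have hi0 : (P.coeff i : K) ≠ 0 := by
      intro h0
      exact h2 (by rw [h0, zero_mul, map_zero])
    have hj0 : (P.coeff j : K) ≠ 0 := by
      intro h0
      exact h2 (by rw [h1, h0, zero_mul, map_zero])
    obtain ⟨m, c, r, hc, -, hr, hm⟩ := PL1_rat v hk y a ha hy (P.coeff i : K) (P.coeff i).2 hi0
    obtain ⟨n, d, t, hd, -, ht, hn⟩ := PL1_rat v hk y a ha hy (P.coeff j : K) (P.coeff j).2 hj0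
    have hvf : v f ≠ 0 := (v.ne_zero_iff).2 hf0
    have hπ : v (y - algebraMap k K a) ≠ 0 := by
      rw [v.ne_zero_iff]
      intro h0
      rw [h0, zero_zpow_eq] at hm
      rw [sub_eq_zero] at h0
      rw [h0] at hy
      exact hy (isAlgebraic_algebraMap a)
    have h3 : v (y - algebraMap k K a) ^ m * v f ^ i = v (y - algebraMap k K a) ^ n * v f ^ j := by
      have h4 := h1
      rw [hm, hn] at h4
      simpa only [map_mul, map_zpow₀, map_pow, hr, ht, mul_one] using h4
    have h5 : v f ^ (j - i) = v (y - algebraMap k K a) ^ (m - n) := by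
      obtain ⟨l, rfl⟩ := Nat.exists_eq_add_of_lt hij
      rw [show i + l + 1 - i = l + 1 by omega, zpow_sub₀ hπ]
      rw [show i + l + 1 = i + (l + 1) by omega, pow_add] at h3
      rw [eq_div_iff (zpow_ne_zero _ hπ)]
      have h6 : v f ^ i ≠ 0 := pow_ne_zero _ hvf
      apply mul_right_cancel₀ h6
      rw [h3]
      ac_rfl
    have h6 : j - i ∣ (Module.finrank F₀ K).factorial := by
      apply Nat.dvd_factorial (by omega)
      have h7 : P.natDegree ≤ Module.finrank F₀ K := minpoly.natDegree_le f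
      omega
    obtain ⟨l, hl⟩ := h6
    refine ⟨(m - n) * l, ?_⟩
    rw [hl, pow_mul, h5, ← zpow_natCast, ← zpow_mul]
  rcases lt_or_gt_of_ne hij with h | h
  · exact key i j h (Finset.mem_range.1 hj) heq (by rw [heq]; exact hj0)
  · exact key j i h (Finset.mem_range.1 hi) heq.symm hj0

/-- discreteness -/
theorem PL1_disc (y : K) (a : k) (ha : v (y - algebraMap k K a) < 1)
    (hy : Transcendental k y) [FiniteDimensional (IntermediateField.adjoin k {y}) K] :
    ∃ z : K, z ≠ 0 ∧ v z < 1 ∧ ∀ f : K, f ≠ 0 → ∃ n : ℤ, v f = v z ^ n := by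
  classical
  set N := (Module.finrank (IntermediateField.adjoin k {y}) K).factorial with hN
  have hNpos : 0 < N := Nat.factorial_pos _
  set π := y - algebraMap k K a with hπdef
  have hπ0 : π ≠ 0 := by
    intro h0
    rw [hπdef, sub_eq_zero] at h0
    rw [h0] at hy
    exact hy (isAlgebraic_algebraMap a)
  have hπ : 0 < v π := zero_lt_iff.2 ((v.ne_zero_iff).2 hπ0)
  have hanti := zpow_right_strictAnti₀ hπ ha
  choose w hw using fun f : {f : K // f ≠ 0} => PL1_alg v hk y a ha hy f.1 f.2
  have hex : ∃ n : ℕ, 0 < n ∧ ∃ f : {f : K // f ≠ 0}, w f = n := by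
    refine ⟨N, hNpos, ⟨π, hπ0⟩, ?_⟩
    have h1 := hw ⟨π, hπ0⟩
    have h2 : v π ^ (N : ℤ) = v π ^ w ⟨π, hπ0⟩ := by
      rw [zpow_natCast]
      exact h1
    exact (hanti.injective h2).symm
  obtain ⟨h1, ⟨z, hz0⟩, h2⟩ := Nat.find_spec hex
  have hmin := fun n (hn : n < Nat.find hex) => Nat.find_min hex hn
  set e := Nat.find hex with he
  have hwz := hw ⟨z, hz0⟩
  rw [h2] at hwz
  change v z ^ N = v π ^ (e : ℤ) at hwz
  have hvz0 : v z ≠ 0 := (v.ne_zero_iff).2 hz0
  refine ⟨z, hz0, ?_, ?_⟩
  · by_contra hcon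
    push Not at hcon
    have h3 : 1 ≤ v z ^ N := one_le_pow₀ hcon
    rw [hwz, zpow_natCast] at h3
    exact absurd h3 (not_le.mpr (pow_lt_one₀ (zero_le) ha h1.ne'))
  · intro f hf0
    have hwf := hw ⟨f, hf0⟩
    change v f ^ N = v π ^ w ⟨f, hf0⟩ at hwf
    set s := w ⟨f, hf0⟩ with hs
    refine ⟨s / e, ?_⟩
    have hu0 : f * z ^ (-(s / (e : ℤ))) ≠ 0 := mul_ne_zero hf0 (zpow_ne_zero _ hz0)
    have hwu := hw ⟨_, hu0⟩
    change v (f * z ^ (-(s / (e : ℤ)))) ^ N = v π ^ w ⟨_, hu0⟩ at hwu
    have h3 : v (f * z ^ (-(s / (e : ℤ)))) ^ N = v π ^ (s % (e : ℤ)) := by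
      have h8 : (v z ^ (-(s / (e : ℤ)))) ^ N = (v z ^ N) ^ (-(s / (e : ℤ))) := by
        rw [← zpow_natCast (v z ^ (-(s / (e : ℤ)))), ← zpow_natCast (v z), ← zpow_mul,
          ← zpow_mul, mul_comm]
      rw [map_mul, map_zpow₀, mul_pow, hwf, h8, hwz, ← zpow_mul, ← zpow_add₀ hπ.ne']
      congr 1
      have := Int.emod_add_mul_ediv s e
      linarith
    have h4 : w ⟨_, hu0⟩ = s % (e : ℤ) := hanti.injective (hwu.symm.trans h3)
    have h5 : s % (e : ℤ) = 0 := by
      by_contra hne
      have h6 : 0 ≤ s % (e : ℤ) := Int.emod_nonneg _ (by exact_mod_cast h1.ne')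
      have h7 : s % (e : ℤ) < e := Int.emod_lt_of_pos _ (by exact_mod_cast h1)
      refine hmin (s % (e : ℤ)).toNat (by omega) ⟨by omega, ⟨_, hu0⟩, ?_⟩
      rw [h4]
      omega
    rw [h5, zpow_zero] at h3
    have h6 := PL1_pow_eq_one hNpos h3
    rw [map_mul, map_zpow₀] at h6
    have h7 : v f = v f * v z ^ (-(s / (e : ℤ))) * v z ^ (s / (e : ℤ)) := by
      rw [mul_assoc, ← zpow_add₀ hvz0, neg_add_cancel, zpow_zero, mul_one]
    rw [h7, h6, one_mul]

/-- residue field -/
theorem PL1_res (y : K) (a : k) (ha : v (y - algebraMap k K a) < 1)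
    (hy : Transcendental k y) [FiniteDimensional (IntermediateField.adjoin k {y}) K]
    (f : K) (hf : v f ≤ 1) : ∃ c : k, v (f - algebraMap k K c) < 1 := by
  classical
  set F₀ := IntermediateField.adjoin k {y} with hF₀
  have hπ0 : y - algebraMap k K a ≠ 0 := by
    intro h0
    rw [sub_eq_zero] at h0
    rw [h0] at hy
    exact hy (isAlgebraic_algebraMap a)
  have hπ : 0 < v (y - algebraMap k K a) := zero_lt_iff.2 ((v.ne_zero_iff).2 hπ0)
  -- residues in the rational function field
  have hrat : ∀ g : K, g ∈ F₀ → v g ≤ 1 → ∃ c : k, v (g - algebraMap k K c) < 1 := by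
    intro g hg hg1
    by_cases hg0 : g = 0
    · exact ⟨0, by rw [hg0, map_zero, sub_zero, map_zero]; exact zero_lt_one⟩
    obtain ⟨m, c, r, hc, hrc, hr, hm⟩ := PL1_rat v hk y a ha hy g hg hg0
    have hvg : v g = v (y - algebraMap k K a) ^ m := by
      rw [hm, map_mul, hr, mul_one, map_zpow₀]
    rw [hvg, zpow_le_one_iff_right_of_lt_one₀ hπ ha] at hg1
    rcases hg1.eq_or_lt with h0 | h0
    · refine ⟨c, ?_⟩
      rw [hm, ← h0, zpow_zero, one_mul]
      exact hrc
    · refine ⟨0, ?_⟩
      rw [map_zero, sub_zero, hvg]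
      exact zpow_lt_one₀ hπ ha h0
  set P := minpoly F₀ f with hP
  have hint : IsIntegral F₀ f := IsIntegral.of_finite F₀ f
  have hPm : P.Monic := minpoly.monic hint
  have hsum : ∑ i ∈ Finset.range (P.natDegree + 1), (P.coeff i : K) * f ^ i = 0 := by
    have h1 := minpoly.aeval F₀ f
    rw [aeval_eq_sum_range] at h1
    rw [← h1]
    exact Finset.sum_congr rfl fun i _ => by rw [Algebra.smul_def]; rfl
  obtain ⟨j, hj, hmax⟩ := Finset.exists_max_image (Finset.range (P.natDegree + 1))
    (fun i => v (P.coeff i : K)) ⟨0, by simp⟩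
  have hj1 : 1 ≤ v (P.coeff j : K) := by
    have h1 := hmax P.natDegree (by simp)
    have h2 : P.coeff P.natDegree = 1 := hPm
    simp only [h2] at h1
    simpa using h1
  have hj0 : (P.coeff j : K) ≠ 0 := by
    intro h0
    rw [h0, map_zero] at hj1
    exact absurd hj1 (not_le.mpr zero_lt_one)
  have hb : ∀ i, ∃ c : k, i ∈ Finset.range (P.natDegree + 1) →
      v ((P.coeff i : K) / (P.coeff j : K) - algebraMap k K c) < 1 := by
    intro i
    by_cases hi : i ∈ Finset.range (P.natDegree + 1)
    · obtain ⟨c, hc⟩ := hrat ((P.coeff i : K) / (P.coeff j : K))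
        (div_mem (P.coeff i).2 (P.coeff j).2) (by
          rw [map_div₀]
          exact div_le_one_of_le₀ (hmax i hi) (zero_le))
      exact ⟨c, fun _ => hc⟩
    · exact ⟨0, fun h => absurd h hi⟩
  choose c hc using hb
  set C : k[X] := ∑ i ∈ Finset.range (P.natDegree + 1), Polynomial.monomial i (c i) with hC
  have hcj : c j ≠ 0 := by
    intro h0
    have h1 := hc j hj
    rw [h0, map_zero, sub_zero, div_self hj0, map_one] at h1
    exact lt_irrefl _ h1
  have hC0 : C ≠ 0 := by
    intro h0
    have h1 : C.coeff j = c j := by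
      rw [hC, Polynomial.finsetSum_coeff, Finset.sum_eq_single j]
      · rw [Polynomial.coeff_monomial, if_pos rfl]
      · intro b _ hbj
        rw [Polynomial.coeff_monomial, if_neg hbj]
      · intro h
        exact absurd hj h
    rw [h0, Polynomial.coeff_zero] at h1
    exact hcj h1.symm
  apply PL1_lin v hk f C hC0
  have h1 : aeval f C = ∑ i ∈ Finset.range (P.natDegree + 1),
      (algebraMap k K (c i) - (P.coeff i : K) / (P.coeff j : K)) * f ^ i := by
    have h2 : ∑ i ∈ Finset.range (P.natDegree + 1), (P.coeff i : K) / (P.coeff j : K) * f ^ i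
        = 0 := by
      have h3 : ∑ i ∈ Finset.range (P.natDegree + 1), (P.coeff i : K) / (P.coeff j : K) * f ^ i
          = (∑ i ∈ Finset.range (P.natDegree + 1), (P.coeff i : K) * f ^ i) /
            (P.coeff j : K) := by
        rw [Finset.sum_div]
        exact Finset.sum_congr rfl fun i _ => by ring
      rw [h3, hsum, zero_div]
    rw [hC, map_sum]
    simp only [aeval_monomial, sub_mul, Finset.sum_sub_distrib]
    rw [h2, sub_zero]
  rw [h1]
  apply Valuation.map_sum_lt v one_ne_zero
  intro i hi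
  rw [map_mul, map_pow]
  refine mul_lt_one_of_lt_of_le ?_ (pow_le_one' hf i)
  rw [← v.map_neg, neg_sub]
  exact hc i hi

end vals

namespace Pl

variable {k K : Type} [Field k] [IsAlgClosed k] [Field K] [Algebra k K] (p : Pl k K)

theorem PL1_k (c : k) (hc : c ≠ 0) : p.O.valuation (algebraMap k K c) = 1 := by
  apply le_antisymm ((p.O.valuation_le_one_iff _).2 (p.mem c))
  have h1 := (p.O.valuation_le_one_iff _).2 (p.mem c⁻¹)
  rw [map_inv₀, map_inv₀] at h1
  have h2 : 0 < p.O.valuation (algebraMap k K c) :=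
    zero_lt_iff.2 ((p.O.valuation.ne_zero_iff).2 ((_root_.map_ne_zero _).2 hc))
  rwa [inv_le_one₀ h2] at h1

theorem PL1_M (f : K) : p.M f ↔ p.O.valuation f < 1 := by
  unfold M
  rw [← p.O.valuation_le_one_iff, ← p.O.valuation_le_one_iff, map_inv₀]
  by_cases hf : f = 0
  · simp [hf]
  · have h2 : 0 < p.O.valuation f := zero_lt_iff.2 ((p.O.valuation.ne_zero_iff).2 hf)
    rw [inv_le_one₀ h2, not_le]
    constructor
    · rintro ⟨-, h | h⟩
      · exact absurd h hf
      · exact h
    · intro h
      exact ⟨h.le, Or.inr h⟩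

theorem PL1_U (f : K) : p.U f ↔ p.O.valuation f = 1 := by
  unfold U
  rw [← p.O.valuation_le_one_iff, ← p.O.valuation_le_one_iff, map_inv₀]
  by_cases hf : f = 0
  · simp [hf]
  · have h2 : 0 < p.O.valuation f := zero_lt_iff.2 ((p.O.valuation.ne_zero_iff).2 hf)
    rw [inv_le_one₀ h2]
    constructor
    · rintro ⟨-, h, h'⟩
      exact le_antisymm h h'
    · intro h
      exact ⟨hf, h.le, h.ge⟩

/-- the basic data at a place -/
theorem PL1_start (hFF : IsFF k K) : ∃ (y : K) (a : k), Transcendental k y ∧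
    FiniteDimensional (IntermediateField.adjoin k {y}) K ∧
    p.O.valuation (y - algebraMap k K a) < 1 := by
  obtain ⟨x, hx, hfin⟩ := hFF
  have hk := p.PL1_k
  obtain ⟨y, hy, hyf, hy1⟩ : ∃ y : K, Transcendental k y ∧
      FiniteDimensional (IntermediateField.adjoin k {y}) K ∧ p.O.valuation y ≤ 1 := by
    by_cases h : p.O.valuation x ≤ 1
    · exact ⟨x, hx, hfin, h⟩
    · refine ⟨x⁻¹, ?_, ?_, ?_⟩
      · intro h1
        exact hx (by simpa using h1.inv)
      · have h1 : IntermediateField.adjoin k {x⁻¹} = IntermediateField.adjoin k {x} := by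
          apply le_antisymm
          · rw [IntermediateField.adjoin_simple_le_iff]
            exact inv_mem (IntermediateField.mem_adjoin_simple_self k x)
          · rw [IntermediateField.adjoin_simple_le_iff]
            have := inv_mem (IntermediateField.mem_adjoin_simple_self k x⁻¹)
            rwa [inv_inv] at this
        rw [h1]
        exact hfin
      · rw [map_inv₀]
        exact inv_le_one_of_one_le₀ (not_le.mp h).le
  have hex : ∃ C : k[X], C ≠ 0 ∧ p.O.valuation (aeval y C) < 1 := by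
    by_contra hcon
    push Not at hcon
    have h1 : ∀ C : k[X], C ≠ 0 → p.O.valuation (aeval y C) = 1 := fun C hC =>
      le_antisymm (PL1_le _ hk y hy1 C) (hcon C hC)
    have h2 : ∀ f ∈ IntermediateField.adjoin k {y}, p.O.valuation f ≤ 1 := by
      intro f hf
      obtain ⟨g, h, rfl⟩ := (IntermediateField.mem_adjoin_simple_iff k f).1 hf
      by_cases hg : g = 0
      · rw [hg, map_zero, zero_div, map_zero]
        exact zero_le
      by_cases hh : h = 0
      · rw [hh, map_zero, div_zero, map_zero]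
        exact zero_le
      rw [map_div₀, h1 g hg, h1 h hh, div_one]
    apply p.ne
    rw [eq_top_iff]
    intro f _
    rw [← p.O.valuation_le_one_iff]
    by_contra hf1
    rw [not_le] at hf1
    set F₀ := IntermediateField.adjoin k {y} with hF₀
    set P := minpoly F₀ f with hP
    have hint : IsIntegral F₀ f := IsIntegral.of_finite F₀ f
    have hPm : P.Monic := minpoly.monic hint
    have hsum : ∑ i ∈ Finset.range (P.natDegree + 1), (P.coeff i : K) * f ^ i = 0 := by
      have h1 := minpoly.aeval F₀ f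
      rw [aeval_eq_sum_range] at h1
      rw [← h1]
      exact Finset.sum_congr rfl fun i _ => by rw [Algebra.smul_def]; rfl
    have h3 : p.O.valuation (∑ i ∈ Finset.range (P.natDegree + 1), (P.coeff i : K) * f ^ i) =
        p.O.valuation ((P.coeff P.natDegree : K) * f ^ P.natDegree) := by
      apply Valuation.map_sum_eq_of_lt _ (by simp)
      intro i hi
      rw [Finset.mem_sdiff, Finset.mem_singleton, Finset.mem_range] at hi
      have h4 : P.coeff P.natDegree = 1 := hPm
      rw [h4]
      simp only [OneMemClass.coe_one, one_mul, map_mul, map_pow]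
      calc p.O.valuation (P.coeff i : K) * p.O.valuation f ^ i ≤ 1 * p.O.valuation f ^ i := by
            gcongr
            exact h2 _ (P.coeff i).2
        _ = p.O.valuation f ^ i := one_mul _
        _ < p.O.valuation f ^ P.natDegree := pow_lt_pow_right₀ hf1 (by omega)
    have h4 : P.coeff P.natDegree = 1 := hPm
    rw [hsum, h4, map_zero] at h3
    simp only [OneMemClass.coe_one, one_mul, map_pow] at h3
    have h5 : p.O.valuation f ≠ 0 := (zero_lt_one.trans hf1).ne'
    exact pow_ne_zero _ h5 h3.symm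
  obtain ⟨C, hC0, hC⟩ := hex
  obtain ⟨r, hr⟩ := PL1_lin _ hk y C hC0 hC
  exact ⟨y, r, hy, hyf, hr⟩

theorem PL1_laws (hFF : IsFF k K) : p.Laws := by
  have hk := p.PL1_k
  obtain ⟨y, a, hy, hyf, ha⟩ := p.PL1_start hFF
  obtain ⟨z, hz0, hz1, hz⟩ := PL1_disc _ hk y a ha hy
  have hres := PL1_res _ hk y a ha hy
  have hvz : 0 < p.O.valuation z := zero_lt_iff.2 ((p.O.valuation.ne_zero_iff).2 hz0)
  have hex : ∃ z : K, p.Unif z := by
    refine ⟨z, hz0, (p.PL1_M z).2 hz1, fun f hf => ?_⟩
    rw [PL1_M] at hf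
    rw [← p.O.valuation_le_one_iff, map_div₀]
    by_cases hf0 : f = 0
    · rw [hf0, map_zero, zero_div]
      exact zero_le
    obtain ⟨n, hn⟩ := hz f hf0
    rw [hn] at hf ⊢
    have h1 : 0 < n := by
      by_contra hcon
      have : n ≤ 0 := not_lt.mp hcon
      have h2 := (zpow_le_zpow_iff_right_of_lt_one₀ hvz hz1 (m := 0) (n := n)).2 this
      rw [zpow_zero] at h2
      exact absurd hf (not_lt.mpr h2)
    have h2 : p.O.valuation z ^ n / p.O.valuation z = p.O.valuation z ^ (n - 1) := by
      rw [zpow_sub₀ hvz.ne', zpow_one]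
    rw [h2, zpow_le_one_iff_right_of_lt_one₀ hvz hz1]
    omega
  have hunif : p.Unif p.z := by
    unfold Pl.z
    rw [dif_pos hex]
    exact hex.choose_spec
  have hpz0 : p.z ≠ 0 := hunif.1
  have hpz1 : p.O.valuation p.z < 1 := (p.PL1_M _).1 hunif.2.1
  have hvpz : 0 < p.O.valuation p.z := zero_lt_iff.2 ((p.O.valuation.ne_zero_iff).2 hpz0)
  have heq : p.O.valuation p.z = p.O.valuation z := by
    apply le_antisymm
    · obtain ⟨n, hn⟩ := hz p.z hpz0
      rw [hn] at hpz1 ⊢
      have h1 : 0 < n := by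
        by_contra hcon
        have : n ≤ 0 := not_lt.mp hcon
        have h2 := (zpow_le_zpow_iff_right_of_lt_one₀ hvz hz1 (m := 0) (n := n)).2 this
        rw [zpow_zero] at h2
        exact absurd hpz1 (not_lt.mpr h2)
      have h2 := (zpow_le_zpow_iff_right_of_lt_one₀ hvz hz1 (m := n) (n := 1)).2 h1
      rwa [zpow_one] at h2
    · have h1 := hunif.2.2 z ((p.PL1_M z).2 hz1)
      rw [← p.O.valuation_le_one_iff, map_div₀, div_le_one₀ hvpz] at h1
      exact h1
  have hdisc : ∀ f : K, f ≠ 0 → ∃ n : ℤ, p.O.valuation f = p.O.valuation p.z ^ n := by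
    intro f hf
    rw [heq]
    exact hz f hf
  have hord : ∀ f : K, f ≠ 0 → p.O.valuation f = p.O.valuation p.z ^ p.ord f := by
    intro f hf
    have h1 : ∃ n : ℤ, p.U (f * p.z ^ (-n)) := by
      obtain ⟨n, hn⟩ := hdisc f hf
      refine ⟨n, (p.PL1_U _).2 ?_⟩
      rw [map_mul, map_zpow₀, hn, ← zpow_add₀ hvpz.ne', add_neg_cancel, zpow_zero]
    have h2 := h1.choose_spec
    rw [PL1_U, map_mul, map_zpow₀] at h2
    have h3 : p.ord f = h1.choose := by
      unfold Pl.ord
      rw [dif_pos h1]
    rw [h3]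
    calc p.O.valuation f = p.O.valuation f * p.O.valuation p.z ^ (-h1.choose) *
          p.O.valuation p.z ^ h1.choose := by
            rw [mul_assoc, ← zpow_add₀ hvpz.ne', neg_add_cancel, zpow_zero, mul_one]
      _ = p.O.valuation p.z ^ h1.choose := by rw [h2, one_mul]
  have hinj := (zpow_right_strictAnti₀ hvpz hpz1).injective
  refine ⟨hunif, ?_, ?_, ?_, ?_, ?_, ?_⟩
  · apply hinj
    change p.O.valuation p.z ^ p.ord p.z = p.O.valuation p.z ^ (1 : ℤ)
    rw [← hord _ hpz0, zpow_one]
  · intro f g hf hg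
    apply hinj
    change p.O.valuation p.z ^ p.ord (f * g) = p.O.valuation p.z ^ (p.ord f + p.ord g)
    rw [← hord _ (mul_ne_zero hf hg), zpow_add₀ hvpz.ne', ← hord _ hf, ← hord _ hg, map_mul]
  · intro f g hf hg hfg
    have h1 := p.O.valuation.map_add f g
    rw [hord _ hf, hord _ hg, hord _ hfg] at h1
    rcases le_max_iff.1 h1 with h2 | h2
    · exact (min_le_left _ _).trans ((zpow_le_zpow_iff_right_of_lt_one₀ hvpz hpz1).1 h2)
    · exact (min_le_right _ _).trans ((zpow_le_zpow_iff_right_of_lt_one₀ hvpz hpz1).1 h2)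
  · intro f hf
    rw [← p.O.valuation_le_one_iff, hord _ hf, zpow_le_one_iff_right_of_lt_one₀ hvpz hpz1]
  · intro c
    by_cases hc : c = 0
    · rw [hc, map_zero, ord_zero]
    · apply hinj
      change p.O.valuation p.z ^ p.ord (algebraMap k K c) = p.O.valuation p.z ^ (0 : ℤ)
      rw [← hord _ ((_root_.map_ne_zero _).2 hc), hk c hc, zpow_zero]
  · intro f hf
    obtain ⟨c, hc⟩ := hres f ((p.O.valuation_le_one_iff f).2 hf)
    exact ⟨c, (p.PL1_M _).2 hc⟩

end Pl

theorem st_PL1 : ST_PL1 := by
  intro k K _ _ _ _ _ hFF p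
  exact p.PL1_laws hFF

end Pool.Agent.Helper8.SPV
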